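import Mathlib

/-!
# MP_bbbdfa: closed discrete subspaces of regular strongly star-Hurewicz spaces

If `X` is regular and strongly star-Hurewicz and `D` is a closed discrete subspace, then
`|D| < λ`, where `λ` is the least `κ` with `𝔟 ≤ κ ≤ 𝔠` and `cof([κ]^ω) = κ`.
-/

universe u

open Cardinal Set Topology Filter

namespace Pool.Agent.Results.MP_bbbdfa_lc.ClosedDiscrete

/-- `F ⊆ ℕ^ℕ` is bounded under eventual domination. -/
def EvBounded (F : Set (ℕ → ℕ)) : Prop := ∃ g : ℕ → ℕ, ∀ f ∈ F, ∀ᶠ n in atTop, f n ≤ g n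

/-- The cardinal `𝔟`: least size of an unbounded family in `ℕ^ℕ`. -/
noncomputable def bNumber : Cardinal.{0} :=
  sInf {c | ∃ F : Set (ℕ → ℕ), #F = c ∧ ¬ EvBounded F}

/-- `C` is a cofinal family of countable subsets of `K`. -/
def CofinalCountable {K : Type} (C : Set (Set K)) : Prop :=
  (∀ A ∈ C, A.Countable) ∧ ∀ B : Set K, B.Countable → ∃ A ∈ C, B ⊆ A

/-- `cof([κ]^ω)`: least size of a cofinal family of countable subsets of `κ`. -/
noncomputable def cofCtbl (κ : Cardinal.{0}) : Cardinal.{0} :=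
  sInf {c | ∃ C : Set (Set κ.ord.ToType), #C = c ∧ CofinalCountable C}

/-- The cardinal `λ = min {κ : 𝔟 ≤ κ ≤ 𝔠, cof([κ]^ω) = κ}`. -/
noncomputable def lam : Cardinal.{0} :=
  sInf {κ | bNumber ≤ κ ∧ κ ≤ Cardinal.continuum ∧ cofCtbl κ = κ}

/-- The star of `A` with respect to a family `𝒰`. -/
def star {X : Type u} (A : Set X) (𝒰 : Set (Set X)) : Set X :=
  ⋃₀ {U | U ∈ 𝒰 ∧ (U ∩ A).Nonempty}

/-- `𝒰` is an open cover of `X`. -/
def OpenCover {X : Type u} [TopologicalSpace X] (𝒰 : Set (Set X)) : Prop :=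
  (∀ U ∈ 𝒰, IsOpen U) ∧ ⋃₀ 𝒰 = Set.univ

/-- `X` is strongly star-Hurewicz. -/
def StronglyStarHurewicz (X : Type u) [TopologicalSpace X] : Prop :=
  ∀ 𝒰 : ℕ → Set (Set X), (∀ n, OpenCover (𝒰 n)) →
    ∃ F : ℕ → Set X, (∀ n, (F n).Finite) ∧ ∀ x, ∀ᶠ n in atTop, x ∈ star (F n) (𝒰 n)

theorem evBounded_countable {S : Set (ℕ → ℕ)} (hS : S.Countable) : EvBounded S := by
  rcases S.eq_empty_or_nonempty with rfl | hne
  · exact ⟨0, fun f hf => absurd hf (notMem_empty f)⟩
  obtain ⟨s, rfl⟩ := hS.exists_eq_range hne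
  refine ⟨fun n => (Finset.range (n + 1)).sup (fun i => s i n), ?_⟩
  rintro _ ⟨i, rfl⟩
  filter_upwards [eventually_ge_atTop i] with n hn
  exact Finset.le_sup (f := fun i => s i n) (Finset.mem_range.mpr (Nat.lt_succ_of_le hn))

theorem evBounded_union {S T : Set (ℕ → ℕ)} (hS : EvBounded S) (hT : EvBounded T) :
    EvBounded (S ∪ T) := by
  obtain ⟨g, hg⟩ := hS
  obtain ⟨h, hh⟩ := hT
  refine ⟨fun n => max (g n) (h n), ?_⟩
  rintro f (hf | hf)
  · filter_upwards [hg f hf] with n hn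
    exact hn.trans (le_max_left _ _)
  · filter_upwards [hh f hf] with n hn
    exact hn.trans (le_max_right _ _)

theorem not_evBounded_univ : ¬ EvBounded (Set.univ : Set (ℕ → ℕ)) := by
  rintro ⟨g, hg⟩
  obtain ⟨n, hn⟩ := (hg (fun n => g n + 1) (mem_univ _)).exists
  exact absurd hn (by simp)

theorem exists_unbounded : ∃ F : Set (ℕ → ℕ), #F = bNumber ∧ ¬ EvBounded F :=
  csInf_mem (s := {c | ∃ F : Set (ℕ → ℕ), #F = c ∧ ¬ EvBounded F})
    ⟨_, Set.univ, rfl, not_evBounded_univ⟩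

theorem aleph0_lt_bNumber : ℵ₀ < bNumber := by
  obtain ⟨F, hF, hub⟩ := exists_unbounded
  rw [← hF]
  by_contra hcon
  exact hub (evBounded_countable (Cardinal.le_aleph0_iff_set_countable.mp (not_lt.mp hcon)))

theorem bNumber_le_continuum : bNumber ≤ Cardinal.continuum := by
  have h : bNumber ≤ #(Set.univ : Set (ℕ → ℕ)) :=
    csInf_le' ⟨Set.univ, rfl, not_evBounded_univ⟩
  refine h.trans ?_
  rw [mk_univ, ← power_def, mk_nat, Cardinal.aleph0_power_aleph0]

theorem exists_cofinal (κ : Cardinal.{0}) :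
    ∃ C : Set (Set κ.ord.ToType), #C = cofCtbl κ ∧ CofinalCountable C :=
  csInf_mem (s := {c | ∃ C : Set (Set κ.ord.ToType), #C = c ∧ CofinalCountable C})
    ⟨_, {A | A.Countable}, rfl, fun _ hA => hA, fun B hB => ⟨B, hB, subset_rfl⟩⟩

theorem le_cofCtbl {κ : Cardinal.{0}} (hκ : ℵ₀ < κ) : κ ≤ cofCtbl κ := by
  obtain ⟨C, hC, hCc, hCcof⟩ := exists_cofinal κ
  rw [← hC]
  have hun : ⋃₀ C = Set.univ := by
    refine eq_univ_of_forall fun x => ?_
    obtain ⟨A, hA, hxA⟩ := hCcof {x} (countable_singleton x)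
    exact ⟨A, hA, hxA rfl⟩
  have h1 : κ ≤ #C * ℵ₀ := by
    calc κ = #(⋃₀ C : Set κ.ord.ToType) := by rw [hun, mk_univ, mk_ord_toType]
      _ ≤ #C * ⨆ s : C, #s := mk_sUnion_le C
      _ ≤ #C * ℵ₀ := by
        refine mul_le_mul_right ?_ _
        exact ciSup_le' fun s => Cardinal.le_aleph0_iff_set_countable.mpr (hCc s s.2)
  rcases le_total ℵ₀ #C with h2 | h2
  · rwa [mul_eq_left h2 h2 aleph0_ne_zero] at h1
  · exfalso
    have : κ ≤ ℵ₀ := h1.trans ((mul_le_mul_left h2 _).trans (by simp))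
    exact absurd hκ (not_lt.mpr this)

theorem cofCtbl_continuum : cofCtbl Cardinal.continuum = Cardinal.continuum := by
  refine le_antisymm ?_ (le_cofCtbl aleph0_lt_continuum)
  refine (csInf_le' (s := {c | ∃ C : Set (Set (Cardinal.continuum.{0}).ord.ToType), #C = c ∧
    CofinalCountable C}) ⟨{A | A.Countable}, rfl, fun _ hA => hA,
      fun B hB => ⟨B, hB, subset_rfl⟩⟩).trans ?_
  have h2 : #({A : Set (Cardinal.continuum.{0}).ord.ToType | A.Countable}) ≤
      #(ℕ → Option (Cardinal.continuum.{0}).ord.ToType) := by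
    have : ∀ A : {A : Set (Cardinal.continuum.{0}).ord.ToType | A.Countable},
        ∃ g : ℕ → Option (Cardinal.continuum.{0}).ord.ToType, A.1 = {x | some x ∈ range g} := by
      rintro ⟨A, hA⟩
      have hA' : (insert none (some '' A)).Countable := (hA.image _).insert _
      obtain ⟨g, hg⟩ := hA'.exists_eq_range (insert_nonempty _ _)
      refine ⟨g, ?_⟩
      ext x
      simp [← hg]
    choose g hg using this
    refine mk_le_of_injective (f := g) ?_
    intro A B hAB
    exact Subtype.ext (by rw [hg A, hg B, hAB])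
  refine h2.trans ?_
  rw [← power_def, mk_option, mk_ord_toType, mk_nat, add_one_eq aleph0_le_continuum,
    continuum_power_aleph0]

theorem lam_spec : bNumber ≤ lam ∧ lam ≤ Cardinal.continuum ∧ cofCtbl lam = lam :=
  csInf_mem (s := {κ | bNumber ≤ κ ∧ κ ≤ Cardinal.continuum ∧ cofCtbl κ = κ})
    ⟨Cardinal.continuum, bNumber_le_continuum, le_rfl, cofCtbl_continuum⟩

/-- Combinatorial heart: the situation in which a closed discrete set is indexed by a cardinal `κ`
that is a fixed point above `𝔟` leads to a contradiction. -/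
theorem no_fixed_point {κ : Cardinal.{0}} (hb : bNumber ≤ κ) (hκ : cofCtbl κ = κ)
    {X : Type u} [TopologicalSpace X] [T3Space X] (hX : StronglyStarHurewicz X)
    (g : κ.ord.ToType → X) (hg : Function.Injective g)
    (hgc : ∀ S : Set κ.ord.ToType, IsClosed (g '' S)) : False := by
  classical
  have hκ0 : ℵ₀ < κ := aleph0_lt_bNumber.trans_le hb
  -- an unbounded family of size b
  obtain ⟨B, hB, hBub⟩ := exists_unbounded
  have hBne : B.Nonempty := by
    rw [nonempty_iff_ne_empty]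
    rintro rfl
    exact hBub ⟨0, fun f hf => absurd hf (notMem_empty f)⟩
  -- a bijection from κ to κ × B
  have hcard : #κ.ord.ToType = #(κ.ord.ToType × B) := by
    rw [mk_prod, lift_id, lift_id, mk_ord_toType, hB,
      mul_eq_left hκ0.le hb (aleph0_pos.trans aleph0_lt_bNumber).ne']
  obtain ⟨π⟩ := Cardinal.eq.mp hcard
  -- a cofinal family of countable sets, indexed by κ
  obtain ⟨C, hC, hCc, hCcof⟩ := exists_cofinal κ
  have hC' : #κ.ord.ToType = #C := by rw [hC, hκ, mk_ord_toType]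
  obtain ⟨ρ⟩ := Cardinal.eq.mp hC'
  have hne : Nonempty κ.ord.ToType := by
    rw [← Cardinal.mk_ne_zero_iff, Cardinal.mk_ord_toType]
    exact (aleph0_pos.trans hκ0).ne'
  obtain ⟨k0⟩ := hne
  have henum : ∀ α : κ.ord.ToType, ∃ e : ℕ → κ.ord.ToType, (ρ α).1 ⊆ range e := by
    intro α
    rcases (ρ α).1.eq_empty_or_nonempty with h | h
    · exact ⟨fun _ => k0, by rw [h]; exact empty_subset _⟩
    · obtain ⟨e, he⟩ := (hCc _ (ρ α).2).exists_eq_range h
      exact ⟨e, he.subset⟩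
  choose e he using henum
  -- the neighbourhoods
  have hO : ∀ k, ∃ O : Set X, IsOpen O ∧ g k ∈ O ∧ ∀ k', g k' ∈ closure O → k' = k := by
    intro k
    have hcl : IsClosed (g '' {k}ᶜ) := hgc _
    have hnm : g k ∉ g '' {k}ᶜ := by
      rintro ⟨k', hk', hkk⟩
      exact hk' (hg hkk)
    obtain ⟨t, ht, htc, hts⟩ := exists_mem_nhds_isClosed_subset
      (hcl.isOpen_compl.mem_nhds hnm)
    refine ⟨interior t, isOpen_interior, mem_interior_iff_mem_nhds.mpr ht, ?_⟩
    intro k' hk'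
    by_contra hne'
    exact hts (htc.closure_subset_iff.mpr interior_subset hk') ⟨k', hne', rfl⟩
  choose O hOo hOm hOc using hO
  -- the refined neighbourhoods and the covers
  let U : ℕ → κ.ord.ToType → Set X := fun n k =>
    O k \ ⋃ j ∈ {j : ℕ | j < (π k).2.1 n ∧ e (π k).1 j ≠ k}, closure (O (e (π k).1 j))
  have hUo : ∀ n k, IsOpen (U n k) := by
    intro n k
    refine (hOo k).sdiff (Set.Finite.isClosed_biUnion ?_ fun _ _ => isClosed_closure)
    exact (Set.finite_lt_nat ((π k).2.1 n)).subset fun j hj => hj.1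
  have hUm : ∀ n k, g k ∈ U n k := by
    intro n k
    refine ⟨hOm k, ?_⟩
    intro hmem
    simp only [mem_iUnion] at hmem
    obtain ⟨j, hj, hmem⟩ := hmem
    exact hj.2 (hOc _ k hmem).symm
  let 𝒰 : ℕ → Set (Set X) := fun n => insert (range g)ᶜ (range (U n))
  have h𝒰 : ∀ n, OpenCover (𝒰 n) := by
    intro n
    constructor
    · rintro V (rfl | ⟨k, rfl⟩)
      · rw [← image_univ]
        exact (hgc _).isOpen_compl
      · exact hUo n k
    · refine eq_univ_of_forall fun x => ?_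
      by_cases hx : x ∈ range g
      · obtain ⟨k, rfl⟩ := hx
        exact ⟨U n k, Or.inr ⟨k, rfl⟩, hUm n k⟩
      · exact ⟨_, Or.inl rfl, hx⟩
  obtain ⟨F, hFfin, hF⟩ := hX 𝒰 h𝒰
  have hmeet : ∀ k, ∀ᶠ n in atTop, (U n k ∩ F n).Nonempty := by
    intro k
    filter_upwards [hF (g k)] with n hn
    obtain ⟨V, ⟨hV, hVF⟩, hkV⟩ := hn
    rcases hV with rfl | ⟨k', rfl⟩
    · exact absurd ⟨k, rfl⟩ hkV
    · have : k = k' := hOc k' k (subset_closure hkV.1)
      rwa [this]
  -- the countable set of indices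
  let dd : X → κ.ord.ToType := fun x => if h : ∃ k, x ∈ O k then h.choose else k0
  have hdd : ∀ x, (∃ k, x ∈ O k) → x ∈ O (dd x) := by
    intro x hx
    simp only [dd, dif_pos hx]
    exact hx.choose_spec
  have hcount : (dd '' ⋃ n, F n).Countable :=
    (countable_iUnion fun n => (hFfin n).countable).image _
  obtain ⟨A, hAC, hA⟩ := hCcof _ hcount
  obtain ⟨α, hα⟩ := ρ.surjective ⟨A, hAC⟩
  have hj : ∀ x ∈ ⋃ n, F n, ∃ j, e α j = dd x := by
    intro x hx
    have h1 : dd x ∈ (ρ α).1 := by rw [hα]; exact hA ⟨x, hx, rfl⟩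
    exact he α h1
  let jj : X → ℕ := fun x => if h : ∃ j, e α j = dd x then h.choose else 0
  have hjj : ∀ x ∈ ⋃ n, F n, e α (jj x) = dd x := by
    intro x hx
    simp only [jj, dif_pos (hj x hx)]
    exact (hj x hx).choose_spec
  let h : ℕ → ℕ := fun n => (hFfin n).toFinset.sup jj
  have hdom : ∀ b : B, π.symm (α, b) ∉ range (e α) → ∀ᶠ n in atTop, b.1 n ≤ h n := by
    intro b hb'
    filter_upwards [hmeet (π.symm (α, b))] with n hn
    obtain ⟨x, hxU, hxF⟩ := hn
    have hxF' : x ∈ ⋃ n, F n := mem_iUnion.mpr ⟨n, hxF⟩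
    have h1 : x ∈ O (dd x) := hdd x ⟨_, hxU.1⟩
    have h2 : jj x ≤ h n := Finset.le_sup (f := jj) ((hFfin n).mem_toFinset.mpr hxF)
    refine le_trans ?_ h2
    by_contra hlt
    refine hxU.2 ?_
    simp only [mem_iUnion]
    refine ⟨jj x, ⟨?_, ?_⟩, ?_⟩
    · rw [Equiv.apply_symm_apply]
      exact not_le.mp hlt
    · rw [Equiv.apply_symm_apply]
      exact fun heq => hb' ⟨jj x, heq⟩
    · rw [Equiv.apply_symm_apply]
      change x ∈ closure (O (e α (jj x)))
      rw [hjj x hxF']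
      exact subset_closure h1
  -- contradiction
  apply hBub
  have hsplit : B ⊆ {f | ∃ b : B, b.1 = f ∧ π.symm (α, b) ∉ range (e α)} ∪
      (fun b : B => b.1) '' {b | π.symm (α, b) ∈ range (e α)} := by
    intro f hf
    by_cases hc : π.symm (α, (⟨f, hf⟩ : B)) ∈ range (e α)
    · exact Or.inr ⟨⟨f, hf⟩, hc, rfl⟩
    · exact Or.inl ⟨⟨f, hf⟩, rfl, hc⟩
  obtain ⟨G, hG⟩ := evBounded_union (S := {f | ∃ b : B, b.1 = f ∧ π.symm (α, b) ∉ range (e α)})
    (T := (fun b : B => b.1) '' {b | π.symm (α, b) ∈ range (e α)})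
    ⟨h, by rintro _ ⟨b, rfl, hb'⟩; exact hdom b hb'⟩
    (evBounded_countable (Set.Countable.image
      ((countable_range (e α)).preimage_of_injOn (f := fun b : B => π.symm (α, b))
        (fun b _ b' _ hbb => by
          have := π.symm.injective hbb
          exact (Prod.mk.inj this).2)) _))
  exact ⟨G, fun f hf => hG f (hsplit hf)⟩

/-- **Main theorem** (positive answer to Q1, in ZFC). If `X` is a regular strongly star-Hurewicz
space and `D` is a closed discrete subspace of `X`, then `|D| < λ`. -/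
theorem result (X : Type u) [TopologicalSpace X] [T3Space X] (hX : StronglyStarHurewicz X)
    (D : Set X) (hDc : IsClosed D) (hDd : DiscreteTopology D) :
    #D < Cardinal.lift.{u} lam := by
  obtain ⟨h1, -, h3⟩ := lam_spec
  by_contra hcon
  rw [not_lt, ← mk_ord_toType lam] at hcon
  obtain ⟨φ⟩ := (Cardinal.lift_mk_le' (α := lam.ord.ToType) (β := D)).mp (by simpa using hcon)
  refine no_fixed_point h1 h3 hX (fun k => (φ k).1)
    (fun a b hab => φ.injective (Subtype.ext hab)) ?_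
  intro S
  have : (fun k => (φ k).1) '' S = Subtype.val '' (φ '' S) := by
    rw [image_image]
  rw [this]
  exact hDc.isClosedEmbedding_subtypeVal.isClosedMap _ (isClosed_discrete _)

end Pool.Agent.Results.MP_bbbdfa_lc.ClosedDiscrete
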